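import Pool.Agent.U231.PF.VTFin

/-!
# The crystalline variational Tate conjecture for the products of an arbitrary family with Fermat varieties

Let `k` be a finite field of characteristic `p`, let `S` be a smooth variety over `k`, and let `Z → S` be **any** smooth
proper family. Let `s` be a closed point of `S`, and let `B ≥ 1` be a bound for the Betti numbers of `Z_s`
(or only a bound for the numbers of conjugates, see below). Let `X_i` be products of Fermat varieties
`x_0 ^ N_i + ⋯ + x_{n+1} ^ N_i = 0` over `k`, where `N_i` is a prime number which divides `p - 1`, and let the `N_i` be
different. Let `s_i` be the number of the coordinates used for `X_i`, so `s_i = n + 2` for one variety of dimension `n`, and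
the sum of the numbers `n + 2` of the factors in general. Suppose for all `i` that `N_i > s_i B + 1`, or only
that every odd divisor `m ≤ s_i` of `N_i - 1` satisfies `m B < N_i - 1`. Let `X_L` be the product of some of the `X_i` (each
taken once). We consider the family `X_L × Z → S`.

**Theorem.** (1) For every cycle `z` of codimension `r` on the fibre `X_L × Z_s` (with rational coefficients) there are
finitely many cycles `z_t` on `Z_s`, of codimensions between `r - dim X_L` and `r`, such that each of the four conditions
(deform), (crys), (crys-φ), (flat) of the problem holds for `z` if and only if it holds for all `z_t`.

(2) **The four conditions are equivalent for all cycles of codimension `r` on `X_L × Z_s` if and only if they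
are equivalent for all cycles on `Z_s` of the codimensions `j` with `r - dim X_L ≤ j ≤ r`.**

So the problem for `X_L × Z` depends only on `Z`. For instance, **the four conditions are equivalent in all
codimensions for `X_L × Z`, if `Z → S` is a projective family of curves or surfaces with connected fibres**: for `Z` this is
the known case of divisors, and the trivial cases of the codimension `0` and of zero-cycles. (It is trivial for `X_L`, as a
constant family; but a class on `X_L × Z_s` of codimension at least two is not a divisor class.)

**The formal setting.** `E` is an algebraic closure of the field of fractions `K` of the Witt vectors of the residue field of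
`s`, and `v` is the valuation with `v(q) = 1` for the number `q` of elements of this field. The spaces are the crystalline cohomology of the fibres at `s` with
coefficients in `E`, with the action of the normalized Frobenius `φ`: on `H^m` it is the (linear) Frobenius divided by
`ρ ^ m`, where `ρ` is a square root of `q`. The cohomology of a product is the tensor product (`prodOf`). `cl L r` is the
set of the classes of the cycles of codimension `r` with rational coefficients on `X_L × Z_s`, which are invariant under `φ`.
`IsCondition` lists the properties of the four conditions which we use: the classes which satisfy a condition are closed
under sums, under external products with classes of cycles on `X_i`, and under the push-forward of the product with a cycle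
on `X_i` to the other factors. This is clear for all of them, since the family `X_i` is constant; for the classes which lift to
`H_crys(X_i × Y)` or to the sections of the isocrystal (which is `H(X_i) ⊗ R g_* 𝒪`) by the Künneth formula. Nothing is assumed
about the sets for `Z`. (1) and (2) are stated for all conditions with these properties; for (2) take `P` = (flat) and
`P'` = (deform), since (deform) implies (crys-φ), which implies (crys), which implies (flat).

Let `X` be a Fermat variety of prime degree `N` and dimension `n`, where `N` divides `p - 1`. Its cohomology is the direct sum
of the lines spanned by the powers of the hyperplane class and of lines `V_a` in degree `n`, one for every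
`a = (a_0, …, a_{n+1})`, where the `a_j` are residues modulo `N` different from `0` with the sum `0`: the eigenspaces of the
group `μ_N ^ (n+2)`. The Frobenius acts on `V_a` by a Jacobi sum `j(a)`; an automorphism `σ` of the field `E` which raises the
roots of unity of order `N` to the power `c` maps `j(a)` to `j(c a)`; and by Stickelberger's theorem
`v(j(a)) = ∑ ⟨a_j / N⟩ - 1 = n / 2 + ∑ saw (a_j) / (2 N)` (up to the sign of `a`), with `saw (b) = 2 b - N` for `0 < b < N`. So
`α = j(a) / ρ ^ n` has the valuation `∑ saw (a_j) / (2 N)`, and the conjugates of `α ^ 2` are the squares for the characters `c a`.
If the multisets `a` and `-a` are equal, then `V_a` is spanned by the classes of linear subspaces (Ran, Shioda), which are defined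
over `k`. For products of Fermat varieties of the degree `N` one takes the tensor products of these lines, and the
multisets are added; if the multiset is symmetric, then the classes are algebraic by Shioda's inductive structure. This is
what `IsFermatFrob` says. The automorphisms of `E` act on the roots of unity of different prime orders independently. The space of algebraic classes on `X_i` is the
sum of the `V_a` with symmetric `a`, which is dual to itself, so there are cycles with rational coefficients whose classes
are a basis, and cycles which are a dual basis (`IsFactor`).

`HasFewConjugates φ B Z` says that for every eigenvalue `β` of `φ` on `H(Z_s)` the number `β ^ 2` has at most `B` conjugates (or is transcendental,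
which does not occur here). The number `β ^ 2` is `α ^ 2 / q ^ m`, where `α` is a root of the characteristic polynomial of the Frobenius on
`H^m(Z_s)`, which has rational coefficients; so one can take for `B` a bound for the Betti numbers of `Z_s`, or only for the degrees of
the irreducible factors of the characteristic polynomials.

**The proof.** Let `y` be the class of a cycle on `X_1 × ⋯ × X_r × Z_s`, and suppose that it has a component different from `0`
for the characters `a_i` of the `X_i`, and that `a = a_1` is not symmetric. The contractions of this component with linear
forms are eigenvectors of `φ` on `H(Z_s)` with the eigenvalue `β = ∏ α_i ⁻¹`. The number `β ^ 2` has at most `B` conjugates. Now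
choose automorphisms `g` of `E` with given `c_1 (g)` and with `c_i (g) = 1` for `i ≠ 1`. The conjugates `g (β ^ 2)` and
`g' (β ^ 2)` are different, unless the functions `t ↦ S (t c_1(g))` and `t ↦ S (t c_1(g'))` are equal, where `S (t)` is the sum of
`saw` over the multiset `t a`, since the valuations of the conjugates of `β ^ 2` by the automorphisms `h g` are known. So the
stabilizer `H` of the function `t ↦ S (t)` in `(ℤ/N)ˣ` has index at most `B`. The function is the convolution of `saw` with the
odd part of the multiplicity function of `a`. Since the generalized Bernoulli numbers of the odd characters are different
from `0`, the odd part is determined by the convolution, and so it is invariant under `H`. It is not zero, since `a` is not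
symmetric. So `-1` is not in `H`, the order `m` of `H` is an odd divisor of `N - 1`, and the support of `a` contains a coset
of `H`, so `m ≤ s_1`. But `m B ≥ N - 1`, a contradiction. So only symmetric, algebraic characters occur, and
`y = ∑ a_l × y_l`, where the `a_l` are a basis of the space of algebraic classes on `X_1`, and `y_l` is the push-forward of the product
of `y` with a cycle on `X_1`, the dual of `a_l`. So `y_l` is the class of a cycle with rational coefficients on
`X_2 × ⋯ × X_r × Z_s`, and `y` satisfies a condition if and only if all `y_l` satisfy it. The theorem follows by induction; for
the converse in (2) one multiplies cycles on `Z_s` with cycles on `X_L`.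

helper231. The nonvanishing of the Bernoulli numbers is from the starting file `Pool.Agent.H916R2.Indep` (Mathlib has
Dirichlet's theorem on `L(1, χ)`).
-/

set_option autoImplicit false

namespace Pool.Agent.Results.MP_6e4974_ag.FermatTimesArbitrary

open Pool.Agent.Y95.ZT.S Pool.Agent.U231.HF Pool.Agent.U231.LT Pool.Agent.U231.PF

/-- **The crystalline variational Tate conjecture for the products of an arbitrary family with varieties
of Fermat type of different prime degrees.** -/
theorem result {E : Type} [Field E] {Γ : Type} [Group Γ] (v : E → ℚ) (hv : IsValuation v) (φ : Γ)
    {ι : Type} (N s dim : ι → ℕ) (X : ι → Rp E Γ) (clX : ∀ i, ℕ → Set (X i).V)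
    (fn : ∀ i, ℕ → Set ((X i).V →ₗ[E] E)) (hX : IsFermatFamily v φ N s dim X clX fn)
    (Z : Rp E Γ) (B : ℕ) (hZ : HasFewConjugates φ B Z) (hN : ∀ i, IsLarge (N i) (s i) B)
    (cl : ∀ L : List ι, ℕ → Set (prodOf X Z L).V) (hc : AreClasses φ X Z clX fn cl)
    (L : List ι) (hL : L.Nodup) (r : ℕ) :
    (∀ y ∈ cl L r, IsDecided clX fn cl L (L.map dim).sum r y) ∧
      ∀ P P', IsCondition X Z clX fn P → IsCondition X Z clX fn P' →
        (Implies cl P P' L r ↔ ∀ j ≤ r, r ≤ j + (L.map dim).sum → Implies cl P P' [] j) :=
  ⟨fun y hy => decided hv hX hZ hN hc L hL r y hy,
    fun _ _ hP hP' => implies_iff hv hX hZ hN hc hP hP' hL r⟩

end Pool.Agent.Results.MP_6e4974_ag.FermatTimesArbitrary
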